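import Pool.Agent.Work.MP_d0383e_an.Ident

namespace Pool.Agent.Work.MP_d0383e_an

open scoped ContDiff Topology
open Filter Set Real

noncomputable def S1 (ε : ℝ) (z : Z4) : ℝ := 6 / 7 + ε * a1 z
noncomputable def S2 (ε : ℝ) (z : Z4) : ℝ := 2 / 7 + ε * a2 z
noncomputable def W2 (ε : ℝ) (z : Z4) : ℝ := S1 ε z ^ 2 + S2 ε z ^ 2 + (3 / 7) ^ 2
noncomputable def F1 (ε : ℝ) (z : Z4) : ℝ := ε * ev1 LF1 z + ε ^ 2 * ev1 LF2 z + ε ^ 3 * ev1 LF3 z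
noncomputable def F2 (ε : ℝ) (z : Z4) : ℝ := ε * ev2 LF1 z + ε ^ 2 * ev2 LF2 z + ε ^ 3 * ev2 LF3 z
noncomputable def BB (ε : ℝ) (z : Z4) : ℝ := S1 ε z * F1 ε z + S2 ε z * F2 ε z
noncomputable def KK (ε : ℝ) (z : Z4) : ℝ :=
  ε * (W2 ε z * (b11 z + b22 z) -
    (S1 ε z ^ 2 * b11 z + 2 * S1 ε z * S2 ε z * b12 z + S2 ε z ^ 2 * b22 z))
noncomputable def yy (ε : ℝ) (z : Z4) : ℝ := y1 z + ε * y2 z
noncomputable def Tt (ε : ℝ) (z : Z4) : ℝ := 1 + ε * yy ε z / 2 - (ε * yy ε z) ^ 2 / 8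
noncomputable def B' (ε : ℝ) (z : Z4) : ℝ := B1 z + ε * B2 z + ε ^ 2 * B3 z + ε ^ 3 * B4 z
noncomputable def RR (ε : ℝ) (z : Z4) : ℝ :=
  (B4 z + T1 z * B3 z + T2 z * B2 z + T3 z * B1 z) +
    ε * (T1 z * B4 z + T2 z * B3 z + T3 z * B2 z + T4 z * B1 z) +
    ε ^ 2 * (T2 z * B4 z + T3 z * B3 z + T4 z * B2 z) + ε ^ 3 * (T3 z * B4 z + T4 z * B3 z) +
    ε ^ 4 * (T4 z * B4 z)
noncomputable def Psi (ε : ℝ) (z : Z4) : ℝ :=
  19 / 147 + ε * RR ε z +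
    ε * (yy ε z ^ 3 * (1 / 8 - ε * yy ε z / 64) * B' ε z / (√(W2 ε z) + Tt ε z))

theorem W2_pos (ε : ℝ) (z : Z4) : 0 < W2 ε z := by unfold W2; positivity

theorem W2_eq (ε : ℝ) (z : Z4) : W2 ε z = 1 + ε * yy ε z := by
  simp only [W2, S1, S2, yy, y1, y2]; ring

theorem BB_eq (ε : ℝ) (z : Z4) : BB ε z = ε * B' ε z := by
  simp only [BB, B', S1, S2, F1, F2, B1, B2, B3, B4, pD, aD]; ring

theorem KK_eq (ε : ℝ) (z : Z4) : KK ε z = ε * K1 z + ε ^ 2 * K2 z + ε ^ 3 * K3 z := by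
  simp only [KK, W2, S1, S2, K1, K2, K3, y1, y2]; ring

theorem Tt_eq (ε : ℝ) (z : Z4) :
    Tt ε z = 1 + ε * T1 z + ε ^ 2 * T2 z + ε ^ 3 * T3 z + ε ^ 4 * T4 z := by
  simp only [Tt, yy, T1, T2, T3, T4]; ring

theorem TB_sub {z : Z4} (hz : z ∈ TT) (ε : ℝ) :
    Tt ε z * BB ε z - KK ε z = ε ^ 3 * (19 / 147 + ε * RR ε z) := by
  rw [Tt_eq, BB_eq, KK_eq]
  simp only [B', RR]
  linear_combination ε * E1 hz + ε ^ 2 * E2 hz + ε ^ 3 * E3' hz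

theorem WB_sub {z : Z4} (hz : z ∈ TT) (ε : ℝ) (h : 0 < √(W2 ε z) + Tt ε z) :
    √(W2 ε z) * BB ε z - KK ε z = ε ^ 3 * Psi ε z := by
  have h1 : √(W2 ε z) ^ 2 = 1 + ε * yy ε z := by rw [sq_sqrt (W2_pos ε z).le, W2_eq]
  have h2 : √(W2 ε z) - Tt ε z =
      (ε * yy ε z) ^ 3 * (1 / 8 - ε * yy ε z / 64) / (√(W2 ε z) + Tt ε z) := by
    rw [eq_div_iff h.ne']
    have : (√(W2 ε z) - Tt ε z) * (√(W2 ε z) + Tt ε z) = √(W2 ε z) ^ 2 - Tt ε z ^ 2 := by ring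
    rw [this, h1]
    simp only [Tt]; ring
  have h3 : √(W2 ε z) * BB ε z - KK ε z =
      (Tt ε z * BB ε z - KK ε z) + (√(W2 ε z) - Tt ε z) * BB ε z := by ring
  rw [h3, TB_sub hz, h2, BB_eq]
  simp only [Psi]; ring

theorem isCompact_TT : IsCompact TT := by
  have hc : IsClosed TT := by
    unfold TT
    exact (isClosed_eq (by fun_prop) continuous_const).inter
      (isClosed_eq (by fun_prop) continuous_const)
  refine (isCompact_Icc (a := ((-1, -1, -1, -1) : Z4)) (b := (1, 1, 1, 1))).of_isClosed_subset hc ?_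
  rintro ⟨c1, s1, c2, s2⟩ ⟨h1, h2⟩
  simp only at h1 h2
  simp only [mem_Icc, Prod.mk_le_mk]
  refine ⟨⟨?_, ?_, ?_, ?_⟩, ?_, ?_, ?_, ?_⟩ <;> nlinarith

theorem tz_mem (x : ℝ × ℝ) : tz x ∈ TT := ⟨sin_sq_add_cos_sq _, sin_sq_add_cos_sq _⟩

theorem cont_W2 : Continuous fun p : ℝ × Z4 => W2 p.1 p.2 := by
  unfold W2 S1 S2 a1 a2; fun_prop

theorem cont_Tt : Continuous fun p : ℝ × Z4 => Tt p.1 p.2 := by
  unfold Tt yy y1 y2 a1 a2; fun_prop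

theorem cont_RR : Continuous fun p : ℝ × Z4 => RR p.1 p.2 := by
  unfold RR B1 B2 B3 B4 T1 T2 T3 T4 pD aD y1 y2 a1 a2; fun_prop

theorem cont_num : Continuous fun p : ℝ × Z4 =>
    yy p.1 p.2 ^ 3 * (1 / 8 - p.1 * yy p.1 p.2 / 64) * B' p.1 p.2 := by
  unfold B' B1 B2 B3 B4 pD aD yy y1 y2 a1 a2; fun_prop

theorem exists_pos_of_eventually {p : ℝ → Prop} (h : ∀ᶠ x in 𝓝 (0 : ℝ), p x) :
    ∃ x, 0 < x ∧ p x := by
  have h2 : ∀ᶠ x in 𝓝[>] (0 : ℝ), 0 < x ∧ p x :=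
    (eventually_mem_nhdsWithin (s := Ioi (0 : ℝ))).and (h.filter_mono nhdsWithin_le_nhds)
  exact h2.exists

theorem exists_eps : ∃ ε : ℝ, 0 < ε ∧ ∀ z ∈ TT, 0 < √(W2 ε z) * BB ε z - KK ε z := by
  have h : ∀ᶠ ε in 𝓝 (0 : ℝ), ∀ z ∈ TT, 0 < √(W2 ε z) + Tt ε z ∧ 0 < Psi ε z := by
    refine isCompact_TT.eventually_forall_of_forall_eventually fun z _ => ?_
    have hc : Continuous fun p : ℝ × Z4 => √(W2 p.1 p.2) + Tt p.1 p.2 := cont_W2.sqrt.add cont_Tt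
    have h0 : √(W2 0 z) + Tt 0 z = 2 := by rw [W2_eq]; simp [Tt]; norm_num
    have hP : ContinuousAt (fun p : ℝ × Z4 => Psi p.1 p.2) (0, z) :=
      (continuousAt_const.add (continuousAt_fst.mul cont_RR.continuousAt)).add
        (continuousAt_fst.mul (cont_num.continuousAt.div hc.continuousAt (by simp only [h0]; norm_num)))
    refine (hc.continuousAt.eventually (lt_mem_nhds ?_)).and (hP.eventually (lt_mem_nhds ?_))
    · simp only [h0]; norm_num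
    · simp [Psi]
  obtain ⟨ε, hε, h⟩ := exists_pos_of_eventually h
  refine ⟨ε, hε, fun z hz => ?_⟩
  rw [WB_sub hz ε (h z hz).1]
  have := (h z hz).2
  positivity

/-- `(1 - d κ) W` for the first corrector -/
noncomputable def gg (ε δ : ℝ) (z : Z4) : ℝ := √(W2 ε z) - δ * (KK ε z / W2 ε z)

theorem sqrt_bound (a b c u v : ℝ) (hc : 0 < c) :
    √((a - u) ^ 2 + (b - v) ^ 2 + c ^ 2) ≤ √(a ^ 2 + b ^ 2 + c ^ 2) +
      (-(2 * (a * u + b * v)) + (u ^ 2 + v ^ 2)) / (2 * √(a ^ 2 + b ^ 2 + c ^ 2)) := by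
  have h0 : 0 < a ^ 2 + b ^ 2 + c ^ 2 := by positivity
  set W := √(a ^ 2 + b ^ 2 + c ^ 2) with hW
  have hW0 : 0 < W := sqrt_pos.2 h0
  have hW2 : W ^ 2 = a ^ 2 + b ^ 2 + c ^ 2 := sq_sqrt h0.le
  set V := √((a - u) ^ 2 + (b - v) ^ 2 + c ^ 2) with hV
  have hV2 : V ^ 2 = (a - u) ^ 2 + (b - v) ^ 2 + c ^ 2 := sq_sqrt (by positivity)
  rw [← sub_le_iff_le_add', le_div_iff₀ (by positivity)]
  nlinarith [sq_nonneg (V - W)]

theorem exists_delta : ∃ ε δ : ℝ, 0 < δ ∧ gg ε δ (1, 0, 1, 0) ≠ gg ε δ (0, -1, 1, 0) ∧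
    ∀ z ∈ TT, 0 < gg ε δ z ∧
      √((S1 ε z - δ * F1 ε z) ^ 2 + (S2 ε z - δ * F2 ε z) ^ 2 + (3 / 7) ^ 2) + δ ^ 2 ≤
        gg ε δ z := by
  obtain ⟨ε, hε, h⟩ := exists_eps
  have cW : Continuous (W2 ε) := cont_W2.comp (Continuous.prodMk_right ε)
  have cK : Continuous (KK ε) := by unfold KK W2 S1 S2 a1 a2 b11 b12 b22; fun_prop
  have cB : Continuous (BB ε) := by unfold BB S1 S2 F1 F2 a1 a2; fun_prop
  have cF : Continuous fun z => F1 ε z ^ 2 + F2 ε z ^ 2 := by unfold F1 F2; fun_prop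
  have cg : Continuous fun p : ℝ × Z4 => gg ε p.1 p.2 :=
    (cW.comp continuous_snd).sqrt.sub (continuous_fst.mul
      ((cK.comp continuous_snd).div (cW.comp continuous_snd) fun p => (W2_pos ε p.2).ne'))
  have cQ : Continuous fun p : ℝ × Z4 => (√(W2 ε p.2) * BB ε p.2 - KK ε p.2) / W2 ε p.2 -
      p.1 * ((F1 ε p.2 ^ 2 + F2 ε p.2 ^ 2) / (2 * √(W2 ε p.2)) + 1) :=
    ((((cW.sqrt.mul cB).sub cK).div cW fun z => (W2_pos ε z).ne').comp continuous_snd).sub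
      (continuous_fst.mul (((cF.div (continuous_const.mul cW.sqrt) fun z =>
        (mul_pos two_pos (sqrt_pos.2 (W2_pos ε z))).ne').add continuous_const).comp continuous_snd))
  have h1 : ∀ᶠ δ in 𝓝 (0 : ℝ), ∀ z ∈ TT, 0 < gg ε δ z ∧
      0 < (√(W2 ε z) * BB ε z - KK ε z) / W2 ε z -
        δ * ((F1 ε z ^ 2 + F2 ε z ^ 2) / (2 * √(W2 ε z)) + 1) := by
    refine isCompact_TT.eventually_forall_of_forall_eventually fun z hz => ?_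
    refine (cg.continuousAt.eventually (lt_mem_nhds ?_)).and
      (cQ.continuousAt.eventually (lt_mem_nhds ?_))
    · simpa [gg] using W2_pos ε z
    · have := div_pos (h z hz) (W2_pos ε z)
      simpa using this
  have h2 : ∀ᶠ δ in 𝓝 (0 : ℝ), gg ε δ (1, 0, 1, 0) < gg ε δ (0, -1, 1, 0) := by
    refine ContinuousAt.eventually_lt (cg.comp (Continuous.prodMk_left _)).continuousAt
      (cg.comp (Continuous.prodMk_left _)).continuousAt ?_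
    simp only [Function.comp, gg, zero_mul, sub_zero]
    apply sqrt_lt_sqrt (W2_pos _ _).le
    simp only [W2, S1, S2, a1, a2, LA1, LA2, ev, mv]
    norm_num
    nlinarith
  obtain ⟨δ, hδ, h1, h2⟩ := exists_pos_of_eventually (h1.and h2)
  refine ⟨ε, δ, hδ, h2.ne, fun z hz => ⟨(h1 z hz).1, ?_⟩⟩
  have h3 := sqrt_bound (S1 ε z) (S2 ε z) (3 / 7) (δ * F1 ε z) (δ * F2 ε z) (by norm_num)
  have h4 := mul_pos hδ (h1 z hz).2
  have hW0 : 0 < √(W2 ε z) := sqrt_pos.2 (W2_pos ε z)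
  have hW2 : W2 ε z = √(W2 ε z) ^ 2 := (sq_sqrt (W2_pos ε z).le).symm
  change _ ≤ √(W2 ε z) + _ / (2 * √(W2 ε z)) at h3
  have h5 : gg ε δ z - δ ^ 2 - (√(W2 ε z) + (-(2 * (S1 ε z * (δ * F1 ε z) + S2 ε z * (δ * F2 ε z))) +
      ((δ * F1 ε z) ^ 2 + (δ * F2 ε z) ^ 2)) / (2 * √(W2 ε z))) =
      δ * ((√(W2 ε z) * BB ε z - KK ε z) / W2 ε z -
        δ * ((F1 ε z ^ 2 + F2 ε z ^ 2) / (2 * √(W2 ε z)) + 1)) := by
    unfold gg BB
    set W := √(W2 ε z)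
    rw [hW2]
    field_simp
    ring
  linarith

end Pool.Agent.Work.MP_d0383e_an
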