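import Mathlib

/-!
Viscosity solutions of the curvature G-equation with a three-dimensional shear flow.
-/

namespace Pool.Agent.Work.MP_d0383e_an

open scoped ContDiff Laplacian

/-- Euclidean three-space. -/
abbrev E3 : Type := EuclideanSpace ℝ (Fin 3)

/-- The lattice vector with integer coordinates `k`. -/
noncomputable def latt (k : Fin 3 → ℤ) : E3 := WithLp.toLp 2 fun i => (k i : ℝ)

/-- `e` is a unit vector in the direction of `p` (any unit vector if `p = 0`). -/
def IsDir (p e : E3) : Prop := ‖e‖ = 1 ∧ p = ‖p‖ • e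

/-- The spatial part of the equation at `X` for a function `U` with normal direction `e`:
`(|DU| - d (ΔU - D²U(e,e)))₊ + V · DU` with `V = (0, 0, A f(x))`. For `DU ≠ 0` and
`e = DU/|DU|` the first term is `(1 - d div(DU/|DU|))₊ |DU|`. -/
noncomputable def spat (f : ℝ × ℝ → ℝ) (A d : ℝ) (U : E3 → ℝ) (X e : E3) : ℝ :=
  max (‖gradient U X‖ - d * (Δ U X - iteratedFDeriv ℝ 2 U X ![e, e])) 0 +
    A * f (X 0, X 1) * gradient U X 2

/-- `G` is a viscosity solution of the curvature G-equation with `G(X,0) = P · X`: it is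
continuous for `t ≥ 0`, `G - P · X` is `ℤ³`-periodic in `X`, and the sub- and supersolution
inequalities hold for smooth test functions (with the usual semicontinuous envelopes of the
operator where the gradient vanishes). -/
structure IsViscSol (f : ℝ × ℝ → ℝ) (A d : ℝ) (P : E3) (G : E3 × ℝ → ℝ) : Prop where
  cont : ContinuousOn G (Set.univ ×ˢ Set.Ici 0)
  per : ∀ (k : Fin 3 → ℤ) (X : E3) (t : ℝ), 0 ≤ t →
    G (X + latt k, t) - inner ℝ P (X + latt k) = G (X, t) - inner ℝ P X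
  init : ∀ X : E3, G (X, 0) = inner ℝ P X
  sub : ∀ φ : E3 × ℝ → ℝ, ContDiff ℝ ∞ φ → ∀ (X : E3) (t : ℝ), 0 < t →
    IsLocalMax (fun z => G z - φ z) (X, t) →
    ∃ e : E3, IsDir (gradient (fun Y => φ (Y, t)) X) e ∧
      deriv (fun s => φ (X, s)) t + spat f A d (fun Y => φ (Y, t)) X e ≤ 0
  sup : ∀ φ : E3 × ℝ → ℝ, ContDiff ℝ ∞ φ → ∀ (X : E3) (t : ℝ), 0 < t →
    IsLocalMin (fun z => G z - φ z) (X, t) →
    ∃ e : E3, IsDir (gradient (fun Y => φ (Y, t)) X) e ∧
      0 ≤ deriv (fun s => φ (X, s)) t + spat f A d (fun Y => φ (Y, t)) X e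

/-- `-(G(X,t) - P · X)/t → H` as `t → ∞`, for every `X`. -/
def HasBurningVelocity (P : E3) (G : E3 × ℝ → ℝ) (H : ℝ) : Prop :=
  ∀ X : E3, Filter.Tendsto (fun t : ℝ => -((G (X, t) - inner ℝ P X) / t)) Filter.atTop (nhds H)

end Pool.Agent.Work.MP_d0383e_an
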