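import Pool.Agent.Work.MP_d0383e_an.Trig

namespace Pool.Agent.Work.MP_d0383e_an

set_option linter.unusedSimpArgs false

open scoped ContDiff Topology
open Filter Set Real

noncomputable def LS : List Mon :=
  [((1 : ℝ), 0, 0, 1, 0),
    ((-1 : ℝ), 0, 1, 0, 1),
    ((1 : ℝ), 1, 0, 0, 0),
    ((1 : ℝ), 1, 0, 1, 0)]

noncomputable def LA1 : List Mon :=
  [((-1 : ℝ), 0, 1, 0, 0),
    ((-1 : ℝ), 0, 1, 1, 0),
    ((-1 : ℝ), 1, 0, 0, 1)]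

noncomputable def LA2 : List Mon :=
  [((-1 : ℝ), 0, 0, 0, 1),
    ((-1 : ℝ), 0, 1, 1, 0),
    ((-1 : ℝ), 1, 0, 0, 1)]

noncomputable def LF1 : List Mon :=
  [((-45 / 14 : ℝ), 0, 0, 0, 1),
    ((-13 / 42 : ℝ), 0, 1, 0, 0),
    ((-17 / 28 : ℝ), 0, 1, 1, 0),
    ((-17 / 28 : ℝ), 1, 0, 0, 1)]

noncomputable def LF2 : List Mon :=
  [((-77887 / 28224 : ℝ), 0, 0, 0, 0),
    ((-11 / 196 : ℝ), 0, 0, 1, 0),
    ((8163 / 1568 : ℝ), 0, 0, 2, 0),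
    ((12 / 49 : ℝ), 0, 1, 0, 1),
    ((-6171 / 1960 : ℝ), 0, 1, 1, 1),
    ((-1199 / 980 : ℝ), 1, 0, 0, 0),
    ((-1 : ℝ), 1, 0, 1, 0),
    ((6171 / 1960 : ℝ), 1, 0, 2, 0),
    ((-59 / 1176 : ℝ), 1, 1, 0, 1),
    ((-1377 / 784 : ℝ), 1, 1, 1, 1),
    ((-1139 / 2016 : ℝ), 2, 0, 0, 0),
    ((59 / 1176 : ℝ), 2, 0, 1, 0),
    ((1377 / 784 : ℝ), 2, 0, 2, 0)]

noncomputable def LF3 : List Mon :=
  [((-34051 / 1764 : ℝ), 0, 0, 0, 1),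
    ((-1139 / 686 : ℝ), 0, 0, 1, 1),
    ((4427341 / 493920 : ℝ), 0, 0, 2, 1),
    ((78493 / 611226 : ℝ), 0, 1, 0, 0),
    ((-208699 / 13720 : ℝ), 0, 1, 1, 0),
    ((-59501 / 45276 : ℝ), 0, 1, 2, 0),
    ((3252331 / 329280 : ℝ), 0, 1, 3, 0),
    ((-51179 / 123480 : ℝ), 1, 0, 0, 1),
    ((-511669 / 362208 : ℝ), 1, 0, 1, 1),
    ((816587 / 109760 : ℝ), 1, 0, 2, 1),
    ((-7009 / 61740 : ℝ), 1, 1, 0, 0),
    ((-274769 / 32928 : ℝ), 1, 1, 1, 0),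
    ((50489 / 82320 : ℝ), 1, 1, 2, 0),
    ((2384759 / 246960 : ℝ), 1, 1, 3, 0),
    ((-7172 / 2205 : ℝ), 2, 0, 0, 1),
    ((50489 / 82320 : ℝ), 2, 0, 1, 1),
    ((2384759 / 246960 : ℝ), 2, 0, 2, 1),
    ((-4937059 / 9779616 : ℝ), 2, 1, 0, 0),
    ((-457187 / 141120 : ℝ), 2, 1, 1, 0),
    ((97863 / 60368 : ℝ), 2, 1, 2, 0),
    ((80257 / 16464 : ℝ), 2, 1, 3, 0),
    ((-792599 / 987840 : ℝ), 3, 0, 0, 1),
    ((97863 / 60368 : ℝ), 3, 0, 1, 1),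
    ((80257 / 16464 : ℝ), 3, 0, 2, 1)]

theorem d1_LS (z : Z4) : ev1 LS z = ev LA1 z := by
  simp only [LS, LA1, ev, ev1, mv, md]; norm_num; ring

theorem d2_LS (z : Z4) : ev2 LS z = ev LA2 z := by
  simp only [LS, LA2, ev, ev2, mv, md]; norm_num

theorem d21 (z : Z4) : ev1 LA2 z = ev2 LA1 z := by
  simp only [LA1, LA2, ev1, ev2, mv, md]; norm_num; ring

noncomputable def a1 (z : Z4) : ℝ := ev LA1 z
noncomputable def a2 (z : Z4) : ℝ := ev LA2 z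
noncomputable def b11 (z : Z4) : ℝ := ev1 LA1 z
noncomputable def b12 (z : Z4) : ℝ := ev2 LA1 z
noncomputable def b22 (z : Z4) : ℝ := ev2 LA2 z
noncomputable def y1 (z : Z4) : ℝ := 2 * (6 / 7 * a1 z + 2 / 7 * a2 z)
noncomputable def y2 (z : Z4) : ℝ := a1 z ^ 2 + a2 z ^ 2
noncomputable def T1 (z : Z4) : ℝ := y1 z / 2
noncomputable def T2 (z : Z4) : ℝ := y2 z / 2 - y1 z ^ 2 / 8
noncomputable def T3 (z : Z4) : ℝ := -(y1 z * y2 z) / 4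
noncomputable def T4 (z : Z4) : ℝ := -(y2 z ^ 2) / 8
noncomputable def pD (L : List Mon) (z : Z4) : ℝ := 6 / 7 * ev1 L z + 2 / 7 * ev2 L z
noncomputable def aD (L : List Mon) (z : Z4) : ℝ := a1 z * ev1 L z + a2 z * ev2 L z
noncomputable def B1 (z : Z4) : ℝ := pD LF1 z
noncomputable def B2 (z : Z4) : ℝ := pD LF2 z + aD LF1 z
noncomputable def B3 (z : Z4) : ℝ := pD LF3 z + aD LF2 z
noncomputable def B4 (z : Z4) : ℝ := aD LF3 z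
noncomputable def K1 (z : Z4) : ℝ :=
  b11 z + b22 z - ((6 / 7) ^ 2 * b11 z + 2 * (6 / 7) * (2 / 7) * b12 z + (2 / 7) ^ 2 * b22 z)
noncomputable def K2 (z : Z4) : ℝ :=
  y1 z * (b11 z + b22 z) - 2 * (6 / 7) * (a1 z * b11 z + a2 z * b12 z) -
    2 * (2 / 7) * (a1 z * b12 z + a2 z * b22 z)
noncomputable def K3 (z : Z4) : ℝ :=
  y2 z * (b11 z + b22 z) - (a1 z ^ 2 * b11 z + 2 * a1 z * a2 z * b12 z + a2 z ^ 2 * b22 z)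

/-- the torus inside `Z4` -/
def TT : Set Z4 := {z | z.2.1 ^ 2 + z.1 ^ 2 = 1 ∧ z.2.2.2 ^ 2 + z.2.2.1 ^ 2 = 1}

theorem E1 {z : Z4} (hz : z ∈ TT) : B1 z - K1 z = 0 := by
  obtain ⟨c1, s1, c2, s2⟩ := z
  obtain ⟨h1, h2⟩ := hz
  simp only at h1 h2
  simp only [B1, B2, B3, T1, T2, K1, K2, K3, pD, aD, y1, y2, a1, a2, b11, b12, b22, LA1, LA2, LF1,
    LF2, LF3, ev, ev1, ev2, mv, md]
  norm_num
  linear_combination (0) * h1 + (0) * h2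

theorem E2 {z : Z4} (hz : z ∈ TT) : B2 z + T1 z * B1 z - K2 z = 0 := by
  obtain ⟨c1, s1, c2, s2⟩ := z
  obtain ⟨h1, h2⟩ := hz
  simp only at h1 h2
  simp only [B1, B2, B3, T1, T2, K1, K2, K3, pD, aD, y1, y2, a1, a2, b11, b12, b22, LA1, LA2, LF1,
    LF2, LF3, ev, ev1, ev2, mv, md]
  norm_num
  linear_combination ((-11 / 686 : ℝ) * s2 +
      (-1377 / 2744 : ℝ) * c2 * s2) * h1 + ((-3597 / 3430 : ℝ) * s1 +
      (-4131 / 2744 : ℝ) * c1 * s1) * h2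

theorem E3' {z : Z4} (hz : z ∈ TT) : B3 z + T1 z * B2 z + T2 z * B1 z - K3 z = 19 / 147 := by
  obtain ⟨c1, s1, c2, s2⟩ := z
  obtain ⟨h1, h2⟩ := hz
  simp only at h1 h2
  simp only [B1, B2, B3, T1, T2, K1, K2, K3, pD, aD, y1, y2, a1, a2, b11, b12, b22, LA1, LA2, LF1,
    LF2, LF3, ev, ev1, ev2, mv, md]
  norm_num
  linear_combination ((-291727 / 144060 : ℝ) +
      (20896 / 12005 : ℝ) * s2 ^ 2 +
      (732593 / 192080 : ℝ) * c2 +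
      (-59517 / 19208 : ℝ) * c2 * s2 ^ 2 +
      (126229 / 48020 : ℝ) * c2 ^ 2 +
      (-247733 / 288120 : ℝ) * c2 ^ 3 +
      (-27347 / 57624 : ℝ) * s1 * s2 +
      (-161029 / 115248 : ℝ) * s1 * c2 * s2 +
      (-71009 / 38416 : ℝ) * s1 * c2 ^ 2 * s2 +
      (-15918715 / 11409552 : ℝ) * c1 +
      (70267 / 57624 : ℝ) * c1 * s2 ^ 2 +
      (2823301 / 864360 : ℝ) * c1 * c2 +
      (-48977 / 19208 : ℝ) * c1 * c2 * s2 ^ 2 +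
      (74352 / 26411 : ℝ) * c1 * c2 ^ 2 +
      (-26945 / 38416 : ℝ) * c1 * c2 ^ 3) * h1 + ((103449 / 48020 : ℝ) +
      (2940943 / 1728720 : ℝ) * c2 +
      (-375843 / 96040 : ℝ) * s1 * s2 +
      (1629203 / 1267728 : ℝ) * c1 +
      (949867 / 96040 : ℝ) * c1 * c2 +
      (-175491 / 38416 : ℝ) * c1 * s1 * s2 +
      (-277709 / 144060 : ℝ) * c1 ^ 2 +
      (2056447 / 172872 : ℝ) * c1 ^ 2 * c2 +
      (-26945 / 38416 : ℝ) * c1 ^ 2 * s1 * s2 +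
      (-7263 / 7546 : ℝ) * c1 ^ 3 +
      (722891 / 115248 : ℝ) * c1 ^ 3 * c2) * h2

end Pool.Agent.Work.MP_d0383e_an
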