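import Pool.Agent.Work.MP_d0383e_an.Alg
import Pool.Agent.Work.MP_d0383e_an.Compare

namespace Pool.Agent.Work.MP_d0383e_an

open scoped ContDiff Laplacian Topology
open Filter Set Real

noncomputable def P0 : E3 := !₂[6 / 7, 2 / 7, 3 / 7]

theorem norm_P0 : ‖P0‖ = 1 := by
  rw [P0, norm3]; norm_num

theorem inner_P0 (X : E3) : inner ℝ P0 X = 6 / 7 * X 0 + 2 / 7 * X 1 + 3 / 7 * X 2 := by
  simp [P0, PiLp.inner_apply, Fin.sum_univ_three]; ring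

noncomputable def zz (X : E3) : Z4 := tz (X 0, X 1)

theorem zz_per (k : Fin 3 → ℤ) (X : E3) : zz (X + latt k) = zz X := by
  simpa [zz, latt] using tz_per (X 0) (X 1) (k 0) (k 1)

@[fun_prop] theorem contDiff_zz : ContDiff ℝ ∞ zz := by unfold zz; fun_prop

noncomputable def ff (ε δ : ℝ) (x : ℝ × ℝ) : ℝ := (1 - gg ε δ (tz x)) / (3 / 7)

noncomputable def Uw (ε : ℝ) (X : E3) : ℝ := inner ℝ P0 X + ε / (2 * π) * ev LS (zz X)

noncomputable def Uv (ε δ : ℝ) (X : E3) : ℝ :=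
  Uw ε X - δ / (2 * π) * (ε * ev LF1 (zz X) + ε ^ 2 * ev LF2 (zz X) + ε ^ 3 * ev LF3 (zz X))

theorem contDiff_Uw (ε : ℝ) : ContDiff ℝ ∞ (Uw ε) := by
  unfold Uw; simp only [inner_P0]; fun_prop

theorem contDiff_Uv (ε δ : ℝ) : ContDiff ℝ ∞ (Uv ε δ) := by
  have := contDiff_Uw ε
  unfold Uv; fun_prop

theorem contDiff_ff (ε δ : ℝ) : ContDiff ℝ 1 (ff ε δ) := by
  have hW : ContDiff ℝ ∞ (W2 ε) := by unfold W2 S1 S2 a1 a2; fun_prop
  have hK : ContDiff ℝ ∞ (KK ε) := by unfold KK W2 S1 S2 a1 a2 b11 b12 b22; fun_prop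
  have hg : ContDiff ℝ ∞ (gg ε δ) :=
    (hW.sqrt fun z => (W2_pos ε z).ne').sub
      (contDiff_const.mul (hK.div hW fun z => (W2_pos ε z).ne'))
  have : ContDiff ℝ ∞ (ff ε δ) := (contDiff_const.sub (hg.comp contDiff_tz)).div_const _
  exact this.of_le (by exact_mod_cast le_top)

theorem fd_Uw (ε : ℝ) (X : E3) :
    HasFDerivAt (Uw ε) (S1 ε (zz X) • pr 0 + S2 ε (zz X) • pr 1 + (3 / 7 : ℝ) • pr 2) X := by
  have h0 : HasFDerivAt (fun X : E3 => inner ℝ P0 X)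
      ((6 / 7 : ℝ) • pr 0 + (2 / 7 : ℝ) • pr 1 + (3 / 7 : ℝ) • pr 2) X := by
    have := ((6 / 7 : ℝ) • pr 0 + (2 / 7 : ℝ) • pr 1 + (3 / 7 : ℝ) • pr 2).hasFDerivAt (x := X)
    refine this.congr_of_eventuallyEq (Eventually.of_forall fun Y => ?_)
    simp [inner_P0]
  refine (h0.fun_add ((hasFDerivAt_ev LS X).const_mul (ε / (2 * π)))).congr_fderiv ?_
  ext v
  have := pi_pos
  simp [S1, S2, a1, a2, zz, d1_LS, d2_LS]
  field_simp
  ring

theorem fd_Uv (ε δ : ℝ) (X : E3) :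
    HasFDerivAt (Uv ε δ) ((S1 ε (zz X) - δ * F1 ε (zz X)) • pr 0 +
      (S2 ε (zz X) - δ * F2 ε (zz X)) • pr 1 + (3 / 7 : ℝ) • pr 2) X := by
  refine ((fd_Uw ε X).fun_sub (((((hasFDerivAt_ev LF1 X).const_mul ε).fun_add
    ((hasFDerivAt_ev LF2 X).const_mul (ε ^ 2))).fun_add
    ((hasFDerivAt_ev LF3 X).const_mul (ε ^ 3))).const_mul (δ / (2 * π)))).congr_fderiv ?_
  ext v
  have := pi_pos
  simp [F1, F2, zz]
  field_simp
  ring

theorem fd_S1 (ε : ℝ) (X : E3) : HasFDerivAt (fun X => S1 ε (zz X))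
    ((2 * π * ε * b11 (zz X)) • pr 0 + (2 * π * ε * b12 (zz X)) • pr 1) X := by
  refine (((hasFDerivAt_ev LA1 X).const_mul ε).const_add (6 / 7)).congr_fderiv ?_
  ext v
  simp [b11, b12, zz]
  ring

theorem fd_S2 (ε : ℝ) (X : E3) : HasFDerivAt (fun X => S2 ε (zz X))
    ((2 * π * ε * b12 (zz X)) • pr 0 + (2 * π * ε * b22 (zz X)) • pr 1) X := by
  refine (((hasFDerivAt_ev LA2 X).const_mul ε).const_add (2 / 7)).congr_fderiv ?_
  ext v
  simp [b22, b12, zz, d21]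
  ring

theorem spat_Uw (ε δ : ℝ) (hg : ∀ z ∈ TT, 0 < gg ε δ z) (X e : E3)
    (he : IsDir (gradient (Uw ε) X) e) : spat (ff ε δ) 1 (δ / (2 * π)) (Uw ε) X e = 1 := by
  have hgr := grad_eq (fd_Uw ε X)
  have hn : ‖gradient (Uw ε) X‖ = √(W2 ε (zz X)) := by rw [hgr, norm3]; rfl
  have hW0 : 0 < √(W2 ε (zz X)) := sqrt_pos.2 (W2_pos _ _)
  have hW2 : W2 ε (zz X) = √(W2 ε (zz X)) ^ 2 := (sq_sqrt (W2_pos _ _).le).symm
  have h2 := he.2
  rw [hn, hgr] at h2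
  have e0 : e 0 = S1 ε (zz X) / √(W2 ε (zz X)) := by
    have := congrArg (fun v : E3 => v 0) h2
    simp at this
    rw [this]; field_simp
  have e1 : e 1 = S2 ε (zz X) / √(W2 ε (zz X)) := by
    have := congrArg (fun v : E3 => v 1) h2
    simp at this
    rw [this]; field_simp
  have key : √(W2 ε (zz X)) - δ / (2 * π) *
      (Δ (Uw ε) X - iteratedFDeriv ℝ 2 (Uw ε) X ![e, e]) = gg ε δ (zz X) := by
    rw [lap_eq (fd_Uw ε) (fd_S1 ε X) (fd_S2 ε X), second_eq (fd_Uw ε) (fd_S1 ε X) (fd_S2 ε X),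
      e0, e1]
    unfold gg KK
    have := pi_pos
    set W := √(W2 ε (zz X))
    rw [hW2]
    field_simp
    ring
  unfold spat
  rw [hn, key, max_eq_left (hg (zz X) (tz_mem _)).le, hgr]
  simp [ff, zz]

theorem spat_Uv (ε δ : ℝ)
    (hg : ∀ z ∈ TT, √((S1 ε z - δ * F1 ε z) ^ 2 + (S2 ε z - δ * F2 ε z) ^ 2 + (3 / 7) ^ 2) +
      δ ^ 2 ≤ gg ε δ z) (X e : E3) : spat (ff ε δ) 1 0 (Uv ε δ) X e ≤ 1 - δ ^ 2 := by
  have hgr := grad_eq (fd_Uv ε δ X)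
  unfold spat
  rw [zero_mul, sub_zero, max_eq_left (norm_nonneg _), hgr, norm3]
  have := hg (zz X) (tz_mem _)
  simp [ff, zz] at this ⊢
  linarith

theorem main : ∃ (f : ℝ × ℝ → ℝ) (d A : ℝ) (P : E3) (H H' : ℝ),
    (∃ K, LipschitzWith K f) ∧ (∀ (x y : ℝ) (m n : ℤ), f (x + m, y + n) = f (x, y)) ∧
    (∃ x y, f x ≠ f y) ∧ 0 < d ∧ 0 < A ∧ ‖P‖ = 1 ∧ P 2 ≠ 0 ∧ H' < H ∧
    (∀ G, IsViscSol f A d P G → HasBurningVelocity P G H) ∧
    (∀ G, IsViscSol f A 0 P G → ∀ H₀, HasBurningVelocity P G H₀ → H₀ ≤ H') := by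
  obtain ⟨ε, δ, hδ, hne, h⟩ := exists_delta
  have hper : ∀ (x y : ℝ) (m n : ℤ), ff ε δ (x + m, y + n) = ff ε δ (x, y) := by
    intro x y m n; simp only [ff, tz_per]
  have hw : ∀ (k : Fin 3 → ℤ) (X : E3),
      Uw ε (X + latt k) - inner ℝ P0 (X + latt k) = Uw ε X - inner ℝ P0 X := by
    intro k X; simp only [Uw, zz_per]; ring
  have hv : ∀ (k : Fin 3 → ℤ) (X : E3),
      Uv ε δ (X + latt k) - inner ℝ P0 (X + latt k) = Uv ε δ X - inner ℝ P0 X := by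
    intro k X; simp only [Uv, Uw, zz_per]; ring
  refine ⟨ff ε δ, δ / (2 * π), 1, P0, 1, 1 - δ ^ 2, lipschitz_of_per _ (contDiff_ff ε δ) hper, hper,
    ⟨(0, 0), (-1 / 4, 0), ?_⟩, by have := pi_pos; positivity, one_pos, norm_P0, by simp [P0],
    by nlinarith, ?_, ?_⟩
  · have t1 : tz (0, 0) = (1, 0, 1, 0) := by simp [tz]
    have t2 : tz (-1 / 4, 0) = (0, -1, 1, 0) := by
      have : 2 * π * (-1 / 4) = -(π / 2) := by ring
      simp only [tz, this]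
      simp
    simp only [ff, t1, t2]
    intro h3
    apply hne
    linarith
  · intro G hG
    obtain ⟨C, h1⟩ := upper hG _ (contDiff_Uw ε) hw 1
      fun X e he => (spat_Uw ε δ (fun z hz => (h z hz).1) X e he).ge
    obtain ⟨C', h2⟩ := lower hG _ (contDiff_Uw ε) hw 1
      fun X e he => (spat_Uw ε δ (fun z hz => (h z hz).1) X e he).le
    exact velocity_of_bounds h1 h2
  · intro G hG H₀ hH
    obtain ⟨C', h2⟩ := lower hG _ (contDiff_Uv ε δ) hv (1 - δ ^ 2)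
      fun X e _ => spat_Uv ε δ (fun z hz => (h z hz).2) X e
    exact velocity_le h2 hH

end Pool.Agent.Work.MP_d0383e_an
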